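import Pool.Agent.Helper19.SYM.ResInv

/-! Parity of the number of Hamilton circuits of plane cubic maps with an involution. -/

namespace Pool.Agent.Results.MP_0330b6_co.Involutions

open Equiv

/-- A cubic map (no planarity yet) on the set `D` of darts: `σ` rotates around the vertices, `α`
exchanges the two darts of an edge. -/
structure CubicMap (D : Type*) where
  σ : D → D
  α : D → D
  σ3 : ∀ x, σ (σ (σ x)) = x
  σ1 : ∀ x, σ x ≠ x
  α2 : ∀ x, α (α x) = x
  α1 : ∀ x, α x ≠ x

/-- The number of cycles (fixed points included) of a permutation of a finite set. -/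
noncomputable def ncyc {D : Type*} (π : Perm D) : ℕ :=
  Nat.card (Quotient (Perm.SameCycle.setoid π))

/-- Exactly one of three propositions. -/
def One3 (p q r : Prop) : Prop := (p ∧ ¬ q ∧ ¬ r) ∨ (¬ p ∧ q ∧ ¬ r) ∨ (¬ p ∧ ¬ q ∧ r)

/-- The equivalence relation generated by `x ~ s x` and `x ~ a x`. -/
def Conn {D : Type*} (s a : D → D) : D → D → Prop :=
  Relation.EqvGen (fun x y => y = s x ∨ y = a x)

/-- For a set `Z` of unused darts: exchange the two used darts of a vertex `{x, σ x, σ² x}` which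
has exactly one unused dart; everything else is fixed. -/
def sw {D : Type*} [DecidableEq D] (σ : D → D) (Z : Finset D) (x : D) : D :=
  if x ∉ Z ∧ σ x ∉ Z ∧ σ (σ x) ∈ Z then σ x
  else if x ∉ Z ∧ σ x ∈ Z ∧ σ (σ x) ∉ Z then σ (σ x) else x

/-- Exchange the two ends of every edge both of whose ends are used. -/
def ae {D : Type*} [DecidableEq D] (a : D → D) (Z : Finset D) (x : D) : D :=
  if x ∉ Z ∧ a x ∉ Z then a x else x

namespace CubicMap

variable {D : Type*} (M : CubicMap D)

/-- The rotation around the vertices as a permutation. -/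
def permσ : Perm D where
  toFun := M.σ
  invFun := fun x => M.σ (M.σ x)
  left_inv := M.σ3
  right_inv := M.σ3

/-- The edge involution as a permutation. -/
def permα : Perm D where
  toFun := M.α
  invFun := M.α
  left_inv := M.α2
  right_inv := M.α2

/-- Connected and of genus 0: `V - E + F = 2` (with `|D| = 2 E`; the faces are the cycles of
`d ↦ σ (α d)`). -/
def Genus0 [Fintype D] : Prop :=
  (∀ S : Set D, S.Nonempty → (∀ d ∈ S, M.σ d ∈ S ∧ M.α d ∈ S) → S = Set.univ) ∧
  2 * (ncyc M.permσ + ncyc (M.permσ * M.permα)) = Fintype.card D + 4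

/-- `U` (the unused darts) is a perfect matching. -/
def Clo (U : Finset D) : Prop :=
  (∀ x, x ∈ U ↔ M.α x ∈ U) ∧ ∀ x, One3 (x ∈ U) (M.σ x ∈ U) (M.σ (M.σ x) ∈ U)

/-- The complement of `U` is a Hamilton circuit. -/
def Ham [DecidableEq D] (U : Finset D) : Prop :=
  M.Clo U ∧ ∀ x y, x ∉ U → y ∉ U → Conn (sw M.σ U) (ae M.α U) x y

/-- Exactly three Hamilton circuits. -/
def Three [DecidableEq D] : Prop := ∃ U1 U2 U3 : Finset D, M.Ham U1 ∧ M.Ham U2 ∧ M.Ham U3 ∧
  U1 ≠ U2 ∧ U1 ≠ U3 ∧ U2 ≠ U3 ∧ ∀ U, M.Ham U → U = U1 ∨ U = U2 ∨ U = U3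

/-- `g` is a symmetry of the map: it respects the edges and either respects or reverses the
rotations around all vertices. -/
def IsSym (g : Perm D) : Prop :=
  (∀ x, g (M.α x) = M.α (g x)) ∧
    ((∀ x, g (M.σ x) = M.σ (g x)) ∨ ∀ x, g (M.σ x) = M.σ (M.σ (g x)))

end CubicMap

/-- The number of Hamilton circuits of a plane cubic map with at least four vertices is even (and
so it is not three), if the map has a symmetry `g` of order two that exchanges the ends of no
edge, or that fixes more than two darts. -/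
theorem result {D : Type*} [DecidableEq D] [Fintype D] (M : CubicMap D) (hM : M.Genus0)
    (hD : 6 < Fintype.card D) (g : Perm D) (hg : M.IsSym g) (h1 : g ≠ 1) (h2 : g ^ 2 = 1)
    (h : (∀ x, g x ≠ M.α x) ∨ 2 < Nat.card {x // g x = x}) :
    Even (Nat.card {U : Finset D // M.Ham U}) ∧ ¬ M.Three :=
  Pool.H19.ResInv.main (M := ⟨M.σ, M.α, M.σ3, M.σ1, M.α2, M.α1⟩) hM hD g hg h1 h2 h

end Pool.Agent.Results.MP_0330b6_co.Involutions
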