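import Pool.Agent.Helper64.NC.Rd.InT
import Pool.Agent.Helper64.NC.Dt.All

/-! Plane cubic maps with exactly three Hamilton circuits and at most one face of length at least 7
belong to the class `𝒯`. -/

namespace Pool.Agent.Results.MP_0330b6_co.OneBigFace

open Pool.H64.NC

universe u

/-- A plane cubic map with exactly three Hamilton circuits and at most one face of length at least
7 belongs to the class `𝒯`. -/
theorem result {D : Type u} [Fintype D] [DecidableEq D] (M : CubicMap D) (hM : M.Genus0)
    (hT : M.Three) (h1 : ∀ x y, 7 ≤ M.flen x → 7 ≤ M.flen y → M.Fc x y) : InT D M :=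
  CubicMap.one_big_InT (fun q hq => Dat.good_all q hq) _ D M rfl hM hT h1

end Pool.Agent.Results.MP_0330b6_co.OneBigFace
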