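import Pool.Agent.Helper64.NC.Rd.Face
import Pool.Agent.Helper64.NC.Dt.All

/-! Faces of length at most 6 in a cyclically 4-edge-connected plane cubic map with exactly three
Hamilton circuits and without triangular faces. -/

namespace Pool.Agent.Results.MP_0330b6_co.ShortFaces

open Pool.H64.NC

universe u

/-- In a cyclically 4-edge-connected plane cubic map with at least four vertices, exactly three
Hamilton circuits and without triangular faces, a face of length at most 6 all of whose neighbours
have length at most 6 is hexagonal, and at most one of its neighbours is not hexagonal; this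
neighbour is then pentagonal. -/
theorem result {D : Type u} [Fintype D] [DecidableEq D] (M : CubicMap D) (hM : M.Genus0)
    (hC : M.C4) (hn : 12 ≤ Fintype.card D) (hT : M.Three) (h3 : ∀ x, M.flen x ≠ 3)
    (x : D) (hx : M.flen x ≤ 6) (hb : ∀ y, M.Fc x y → M.flen (M.α y) ≤ 6) :
    M.flen x = 6 ∧ (∀ y, M.Fc x y → 5 ≤ M.flen (M.α y)) ∧
      ∀ y z, M.Fc x y → M.Fc x z → M.flen (M.α y) ≤ 5 → M.flen (M.α z) ≤ 5 → y = z := by
  have HG : AllGood := fun q hq => Dat.good_all q hq
  have h6 : M.flen x = 6 := by
    by_contra h
    obtain ⟨y, hy, h7⟩ := CubicMap.small_face HG hM hC hn hT h3 x (by omega)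
    have := hb y hy
    omega
  exact ⟨h6, CubicMap.hex_face HG hM hC hn hT h3 x h6 hb⟩

end Pool.Agent.Results.MP_0330b6_co.ShortFaces
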